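import Pool.Agent.H631.EX.Final

/-! Strongly exterior-star domains: exactly one positive bounded steady state, nondecreasing along
the rays issued from every star centre of the complement. -/

open Set Metric

namespace Pool.Agent.Results.MP_9a9339_an.UniqueAndRadiallyMonotone

noncomputable section

/-- Euclidean space of dimension `d`. -/
abbrev EE (d : ℕ) := EuclideanSpace ℝ (Fin d)

/-- The Laplacian: the sum of the pure second derivatives in the coordinate directions. -/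
def lap {d : ℕ} (u : EE d → ℝ) (x : EE d) : ℝ :=
  ∑ i : Fin d, iteratedFDeriv ℝ 2 u x (fun _ => EuclideanSpace.single i (1 : ℝ))

/-- `f` is a positive reaction of class `C^{1,γ}` (extended to the whole line; only its values on
`[0,∞)` matter): `f(0) = f(1) = 0`, `f < 0` on `(1,∞)`, `f'(1) < 0`, `f > 0` on `(0,1)`,
`f'(0) > 0`. -/
def PosReaction (γ : ℝ) (f : ℝ → ℝ) : Prop :=
  ContDiff ℝ 1 f ∧
    (∀ R : ℝ, ∃ C : ℝ, ∀ x y : ℝ, |x| ≤ R → |y| ≤ R → |deriv f x - deriv f y| ≤ C * |x - y| ^ γ) ∧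
    f 0 = 0 ∧ f 1 = 0 ∧ (∀ s : ℝ, 1 < s → f s < 0) ∧ deriv f 1 < 0 ∧
    (∀ s : ℝ, 0 < s → s < 1 → 0 < f s) ∧ 0 < deriv f 0

/-- `Ω` is uniformly of class `C^{2,γ}`: near each boundary point `p`, in the ball of radius `r`,
`Ω` is the region above the graph (in a direction `ν`) of a function `φ` of the variables
orthogonal to `ν`, with derivatives of order one and two bounded by `M` and second derivative
`γ`-Hölder with constant `M`. -/
def UniformlyC2 {d : ℕ} (γ : ℝ) (Ω : Set (EE d)) : Prop :=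
  ∃ r : ℝ, 0 < r ∧ ∃ M : ℝ, ∀ p ∈ frontier Ω, ∃ ν : EE d, ‖ν‖ = 1 ∧
    ∃ φ : EE d → ℝ, ContDiff ℝ 2 φ ∧
      (∀ (y : EE d) (t : ℝ), φ (y + t • ν) = φ y) ∧
      (∀ y : EE d, ‖iteratedFDeriv ℝ 1 φ y‖ ≤ M ∧ ‖iteratedFDeriv ℝ 2 φ y‖ ≤ M) ∧
      (∀ y z : EE d, ‖iteratedFDeriv ℝ 2 φ y - iteratedFDeriv ℝ 2 φ z‖ ≤ M * ‖y - z‖ ^ γ) ∧
      ∀ x ∈ Metric.ball p r, (x ∈ Ω ↔ φ (x - p) < inner ℝ (x - p) ν)

/-- `u` is a positive bounded solution of `-Δu = f(u)` in `Ω`, `u = 0` on the boundary: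
`u` is `C²` in `Ω`, continuous on the closure, bounded, positive in `Ω`. -/
def PosBddSolution {d : ℕ} (f : ℝ → ℝ) (Ω : Set (EE d)) (u : EE d → ℝ) : Prop :=
  ContDiffOn ℝ 2 u Ω ∧ ContinuousOn u (closure Ω) ∧ (∀ x ∈ frontier Ω, u x = 0) ∧
    (∀ x ∈ Ω, 0 < u x) ∧ (∃ C : ℝ, ∀ x ∈ Ω, |u x| ≤ C) ∧ ∀ x ∈ Ω, -lap u x = f (u x)

/-- `Ω` is strongly exterior-star: its complement is star-shaped about every point of some
nonempty open set. -/
def StronglyExteriorStar {d : ℕ} (Ω : Set (EE d)) : Prop :=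
  ∃ U : Set (EE d), IsOpen U ∧ U.Nonempty ∧ ∀ z ∈ U, StarConvex ℝ z Ωᶜ

/-- Q1, answered positively: for every positive reaction `f` and every strongly exterior-star
domain `Ω` (open, connected, uniformly `C^{2,γ}`), the problem `-Δu = f(u)` in `Ω`, `u = 0` on the
boundary, has exactly one positive bounded solution `u` (as a function on the closure of `Ω`).
Moreover, for every point `z` about which the complement of `Ω` is star-shaped, `Ω` is invariant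
under the dilations `x ↦ z + k (x - z)`, `k ≥ 1`, and `u` is nondecreasing along the rays from
`z`: `u x ≤ u (z + k (x - z))`. -/
theorem result (d : ℕ) (γ : ℝ) (f : ℝ → ℝ) (Ω : Set (EE d)) (hγ : 0 < γ) (hγ1 : γ ≤ 1)
    (hf : PosReaction γ f) (hΩ : IsOpen Ω) (_hconn : IsConnected Ω) (hC2 : UniformlyC2 γ Ω)
    (hstar : StronglyExteriorStar Ω) :
    ∃ u : EE d → ℝ, PosBddSolution f Ω u ∧
      (∀ v : EE d → ℝ, PosBddSolution f Ω v → ∀ x ∈ closure Ω, v x = u x) ∧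
      ∀ z : EE d, StarConvex ℝ z Ωᶜ → ∀ x ∈ Ω, ∀ k : ℝ, 1 ≤ k →
        z + k • (x - z) ∈ Ω ∧ u x ≤ u (z + k • (x - z)) := by
  obtain ⟨U, -, ⟨x₀, hx₀⟩, hU⟩ := hstar
  have hst : StarConvex ℝ x₀ Ωᶜ := hU x₀ hx₀
  obtain ⟨u, hu⟩ := ExtStar.exists_pbs d γ f Ω hγ hγ1 hf hΩ hC2 x₀ hst
  obtain ⟨h1, -⟩ := ExtStar.final d γ f Ω hγ hγ1 hf hΩ hC2 x₀ hst
  refine ⟨u, hu, fun v hv x hx => ?_, fun z hz x hx k hk => ?_⟩
  · by_cases hxΩ : x ∈ Ω
    · exact h1 v u hv hu x hxΩ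
    · have hfr : x ∈ frontier Ω := by
        rw [hΩ.frontier_eq]
        exact ⟨hx, hxΩ⟩
      rw [hv.2.2.1 x hfr]
      exact (hu.2.2.1 x hfr).symm
  · exact (ExtStar.final d γ f Ω hγ hγ1 hf hΩ hC2 z hz).2 u hu x hx k hk

end

end Pool.Agent.Results.MP_9a9339_an.UniqueAndRadiallyMonotone
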